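import Pool.Agent.J4H50.YK.Stm
import Pool.Agent.J4H73.YJ.Cc

set_option autoImplicit false
set_option linter.unusedSectionVars false

/-! # Project YK (helper50): formal coordinate changes -/

namespace Pool.Agent.J4H73.YK

open MvPolynomial
open Pool.Agent.W428.MOT
open Pool.Agent.TH192.MT (ar coeff_ar)
open Pool.Agent.J4H50.YJ
open Pool.Agent.J4H50.YK
open Pool.Agent.J4H73.YJ (cyl_mono common ev_poly pa_ar)

section cong

variable {K : Type} [Field K] {σ : Type}

/-- congruence modulo `t ^ n` -/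
def Cn {F : Type} [Field F] (n : ℕ) (a b : PowerSeries F) : Prop := PowerSeries.X ^ n ∣ a - b

variable {F : Type} [Field F] {n m : ℕ} {a b c d : PowerSeries F}

theorem cn_iff : Cn n a b ↔ ∀ j < n, PowerSeries.coeff j a = PowerSeries.coeff j b := by
  unfold Cn
  rw [PowerSeries.X_pow_dvd_iff]
  simp only [map_sub, sub_eq_zero]

theorem Cn.refl (n : ℕ) (a : PowerSeries F) : Cn n a a := by
  unfold Cn
  rw [sub_self]
  exact dvd_zero _

theorem Cn.symm (h : Cn n a b) : Cn n b a := by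
  rw [cn_iff] at h ⊢
  exact fun j hj => (h j hj).symm

theorem Cn.trans (h : Cn n a b) (h' : Cn n b c) : Cn n a c := by
  rw [cn_iff] at h h' ⊢
  exact fun j hj => (h j hj).trans (h' j hj)

theorem Cn.mono (h : Cn n a b) (hm : m ≤ n) : Cn m a b :=
  (pow_dvd_pow _ hm).trans h

theorem Cn.add (h : Cn n a b) (h' : Cn n c d) : Cn n (a + c) (b + d) := by
  unfold Cn at *
  have := dvd_add h h'
  rwa [show a + c - (b + d) = a - b + (c - d) by ring]

theorem Cn.sub (h : Cn n a b) (h' : Cn n c d) : Cn n (a - c) (b - d) := by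
  unfold Cn at *
  have := dvd_sub h h'
  rwa [show a - c - (b - d) = a - b - (c - d) by ring]

theorem Cn.mul (h : Cn n a b) (h' : Cn n c d) : Cn n (a * c) (b * d) := by
  unfold Cn at *
  rw [show a * c - b * d = (a - b) * c + b * (c - d) by ring]
  exact dvd_add (h.mul_right _) (h'.mul_left _)

theorem Cn.sum {ι : Type} (s : Finset ι) (f g : ι → PowerSeries F) (h : ∀ i ∈ s, Cn n (f i) (g i)) :
    Cn n (∑ i ∈ s, f i) (∑ i ∈ s, g i) := by
  unfold Cn
  rw [← Finset.sum_sub_distrib]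
  exact Finset.dvd_sum h

theorem cn_zero_iff : Cn n a 0 ↔ PowerSeries.X ^ n ∣ a := by
  unfold Cn
  rw [sub_zero]

theorem cn_aeval {x y : Ac K σ} (h : ∀ i, Cn n (x i) (y i)) (q : MvPolynomial σ K) :
    Cn n (aeval x q) (aeval y q) := by
  induction q using MvPolynomial.induction_on with
  | C a =>
    rw [algHom_C, algHom_C]
    exact Cn.refl _ _
  | add p q hp hq =>
    rw [map_add, map_add]
    exact hp.add hq
  | mul_X p i hp =>
    rw [map_mul, map_mul, aeval_X, aeval_X]
    exact hp.mul (h i)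

/-- polynomials without terms of small degree -/
theorem dvd_aeval {x : Ac K σ} (hx : ∀ i, PowerSeries.X ∣ x i) (n : ℕ) (P : MvPolynomial σ K)
    (hP : P ∈ idealOfVars σ K ^ n) : PowerSeries.X ^ n ∣ aeval x P := by
  have h1 := Ideal.mem_map_of_mem (aeval x : MvPolynomial σ K →ₐ[K] _) hP
  rw [Ideal.map_pow] at h1
  have h2 : Ideal.map (aeval x : MvPolynomial σ K →ₐ[K] PowerSeries (AlgebraicClosure K))
      (idealOfVars σ K) ≤ Ideal.span {PowerSeries.X} := by
    rw [idealOfVars, Ideal.map_span, Ideal.span_le]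
    rintro _ ⟨_, ⟨i, rfl⟩, rfl⟩
    rw [SetLike.mem_coe, Ideal.mem_span_singleton, aeval_X]
    exact hx i
  have h3 := Ideal.pow_right_mono h2 n h1
  rw [Ideal.span_singleton_pow, Ideal.mem_span_singleton] at h3
  exact h3

theorem cn_aeval2 {x y : Ac K σ} (hx : ∀ i, PowerSeries.X ∣ x i) (hy : ∀ i, PowerSeries.X ∣ y i)
    {k : ℕ} (h : ∀ i, Cn k (x i) (y i)) (Q : MvPolynomial σ K) (hQ : Q ∈ idealOfVars σ K ^ 2) :
    Cn (k + 1) (aeval x Q) (aeval y Q) := by
  rw [pow_two] at hQ
  refine Submodule.mul_induction_on hQ ?_ ?_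
  · intro p hp q hq
    have h1 := dvd_aeval hx 1 p (by rwa [pow_one])
    have h2 := dvd_aeval hy 1 q (by rwa [pow_one])
    have h3 := cn_aeval h p
    have h4 := cn_aeval h q
    rw [map_mul, map_mul]
    unfold Cn at *
    rw [show aeval x p * aeval x q - aeval y p * aeval y q = aeval x p * (aeval x q - aeval y q) +
      (aeval x p - aeval y p) * aeval y q by ring]
    refine dvd_add ?_ ?_
    · rw [pow_succ, mul_comm]
      exact mul_dvd_mul (by rwa [pow_one] at h1) h4
    · rw [pow_succ]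
      exact mul_dvd_mul h3 (by rwa [pow_one] at h2)
  · intro p q hp hq
    rw [map_add, map_add]
    exact hp.add hq

end cong

section inverse

variable {K : Type} [Field K] {σ : Type} [Fintype σ]

/-- the iteration -/
noncomputable def gg (B : Matrix σ σ K) (q : σ → MvPolynomial σ K) : ℕ → σ → MvPolynomial σ K
  | 0, _ => 0
  | n + 1, i => ∑ j, C (B i j) * (X j - bind₁ (gg B q n) (q j))

/-- one step -/
noncomputable def TT (B : Matrix σ σ K) (q : σ → MvPolynomial σ K) (w x : Ac K σ) : Ac K σ :=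
  fun i => ∑ j, algebraMap K _ (B i j) * (w j - aeval x (q j))

variable (B : Matrix σ σ K) (q : σ → MvPolynomial σ K)

theorem gg_zero (w : Ac K σ) : (fun i => aeval w (gg B q 0 i)) = 0 := by
  funext i
  exact map_zero _

theorem gg_succ (w : Ac K σ) (n : ℕ) : (fun i => aeval w (gg B q (n + 1) i)) =
    TT B q w (fun i => aeval w (gg B q n i)) := by
  funext i
  change aeval w (∑ j, C (B i j) * (X j - bind₁ (gg B q n) (q j))) = _
  rw [map_sum]
  refine Finset.sum_congr rfl fun j _ => ?_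
  rw [map_mul, map_sub, aeval_X, algHom_C, aeval_bind₁]

variable (hq : ∀ i, q i ∈ idealOfVars σ K ^ 2)

include hq

theorem TT_dvd {w x : Ac K σ} (hw : ∀ i, PowerSeries.X ∣ w i) (hx : ∀ i, PowerSeries.X ∣ x i) (i : σ) :
    PowerSeries.X ∣ TT B q w x i := by
  refine Finset.dvd_sum fun j _ => Dvd.dvd.mul_left (dvd_sub (hw j) ?_) _
  exact (dvd_pow_self _ two_ne_zero).trans (dvd_aeval hx 2 _ (hq j))

theorem TT_cn {w x y : Ac K σ} (hx : ∀ i, PowerSeries.X ∣ x i) (hy : ∀ i, PowerSeries.X ∣ y i)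
    {k : ℕ} (h : ∀ i, Cn k (x i) (y i)) (i : σ) : Cn (k + 1) (TT B q w x i) (TT B q w y i) :=
  Cn.sum _ _ _ fun j _ => (Cn.refl _ _).mul ((Cn.refl _ _).sub (cn_aeval2 hx hy h _ (hq j)))

theorem gg_dvd {w : Ac K σ} (hw : ∀ i, PowerSeries.X ∣ w i) (n : ℕ) (i : σ) :
    PowerSeries.X ∣ aeval w (gg B q n i) := by
  induction n generalizing i with
  | zero =>
    rw [congrFun (gg_zero B q w) i]
    exact dvd_zero _
  | succ n ih =>
    rw [congrFun (gg_succ B q w n) i]
    exact TT_dvd B q hq hw ih i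

theorem gg_step {w : Ac K σ} (hw : ∀ i, PowerSeries.X ∣ w i) (n : ℕ) (i : σ) :
    Cn (n + 1) (TT B q w (fun i => aeval w (gg B q n i)) i) (aeval w (gg B q n i)) := by
  induction n generalizing i with
  | zero =>
    have h1 := dvd_sub (TT_dvd B q hq hw (gg_dvd B q hq hw 0) i) (gg_dvd B q hq hw 0 i)
    unfold Cn
    rw [pow_one]
    exact h1
  | succ n ih =>
    have h1 : ∀ i, Cn (n + 1) (aeval w (gg B q (n + 1) i)) (aeval w (gg B q n i)) := by
      intro i
      rw [congrFun (gg_succ B q w n) i]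
      exact ih i
    have h2 := TT_cn B q hq (w := w) (gg_dvd B q hq hw (n + 1)) (gg_dvd B q hq hw n) h1 i
    rw [← congrFun (gg_succ B q w n) i] at h2
    exact h2

theorem gg_fix {w x : Ac K σ} (hw : ∀ i, PowerSeries.X ∣ w i) (hx : ∀ i, PowerSeries.X ∣ x i)
    (h : TT B q w x = x) (n : ℕ) (i : σ) : Cn (n + 1) (aeval w (gg B q n i)) (x i) := by
  induction n generalizing i with
  | zero =>
    have h1 := dvd_sub (gg_dvd B q hq hw 0 i) (hx i)
    unfold Cn
    rw [pow_one]
    exact h1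
  | succ n ih =>
    have h2 := TT_cn B q hq (w := w) (gg_dvd B q hq hw n) hx ih i
    rw [← congrFun (gg_succ B q w n) i, h] at h2
    exact h2

end inverse

section order

variable {F : Type} [Field F]

theorem od_of_cn {a b : PowerSeries F} {l : ℕ} (h : Cn (l + 1) a b) (hb : Od b l) : Od a l := by
  rw [cn_iff] at h
  refine ⟨fun j hj => ?_, ?_⟩
  · rw [h j (by omega)]
    exact hb.1 j hj
  · rw [h l (by omega)]
    exact hb.2

theorem od_iff_dvd {a : PowerSeries F} {l : ℕ} :
    Od a l ↔ PowerSeries.X ^ l ∣ a ∧ ¬ PowerSeries.X ^ (l + 1) ∣ a := by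
  rw [PowerSeries.X_pow_dvd_iff, PowerSeries.X_pow_dvd_iff]
  constructor
  · rintro ⟨h1, h2⟩
    exact ⟨h1, fun h => h2 (h l (by omega))⟩
  · rintro ⟨h1, h2⟩
    refine ⟨h1, fun h => h2 fun j hj => ?_⟩
    rcases Nat.lt_succ_iff_lt_or_eq.1 hj with h3 | rfl
    · exact h1 j h3
    · exact h

theorem od_unit {a c : PowerSeries F} {l : ℕ} (hc : PowerSeries.coeff 0 c ≠ 0) :
    Od (c * a) l ↔ Od a l := by
  have hu : IsUnit c := by
    rw [PowerSeries.isUnit_iff_constantCoeff, isUnit_iff_ne_zero,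
      ← PowerSeries.coeff_zero_eq_constantCoeff_apply]
    exact hc
  rw [od_iff_dvd, od_iff_dvd, hu.dvd_mul_left, hu.dvd_mul_left]

theorem X_dvd_iff0 {a : PowerSeries F} : PowerSeries.X ∣ a ↔ PowerSeries.coeff 0 a = 0 := by
  rw [PowerSeries.X_dvd_iff, PowerSeries.coeff_zero_eq_constantCoeff_apply]

end order

section change

variable {σ : Type} [Fintype σ] [DecidableEq σ]

/-- A polynomial coordinate change `p` with the inverse `g`, on the level `N`. -/
theorem exists_inverse {K : Type} [Field K] (p : σ → MvPolynomial σ K) (A : Matrix σ σ K)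
    (hA : IsUnit A.det) (hp : ∀ i, p i - ∑ j, C (A i j) * X j ∈ idealOfVars σ K ^ 2) (N : ℕ) :
    ∃ g : σ → MvPolynomial σ K, (∀ w : Ac K σ, (∀ i, PowerSeries.X ∣ w i) →
      (∀ i, PowerSeries.X ∣ aeval w (g i)) ∧
      (∀ i, Cn (N + 1) (aeval (fun j => aeval w (g j)) (p i)) (w i)) ∧
      (∀ i, PowerSeries.X ∣ aeval w (p i)) ∧
      (∀ i, Cn (N + 1) (aeval (fun j => aeval w (p j)) (g i)) (w i))) := by
  set q : σ → MvPolynomial σ K := fun i => p i - ∑ j, C (A i j) * X j with hqd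
  have hpq : ∀ (x : Ac K σ) i, aeval x (p i) = ∑ j, algebraMap K _ (A i j) * x j + aeval x (q i) := by
    intro x i
    rw [hqd]
    simp only [map_sub, map_sum, map_mul, aeval_X, algHom_C]
    ring
  have hX2 : ∀ x : Ac K σ, (∀ i, PowerSeries.X ∣ x i) → ∀ i, PowerSeries.X ∣ aeval x (q i) :=
    fun x hx i => (dvd_pow_self _ two_ne_zero).trans (dvd_aeval hx 2 _ (hp i))
  have hpX : ∀ w : Ac K σ, (∀ i, PowerSeries.X ∣ w i) → ∀ i, PowerSeries.X ∣ aeval w (p i) := by
    intro w hw i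
    rw [hpq]
    exact dvd_add (Finset.dvd_sum fun j _ => (hw j).mul_left _) (hX2 w hw i)
  refine ⟨gg A⁻¹ q N, fun w hw => ⟨gg_dvd A⁻¹ q hp hw N, fun k => ?_, hpX w hw, fun i => ?_⟩⟩
  · have h1 := gg_step A⁻¹ q hp hw N
    set y : Ac K σ := fun i => aeval w (gg A⁻¹ q N i) with hy
    have h2 : Cn (N + 1) (∑ i, algebraMap K _ (A k i) * TT A⁻¹ q w y i)
        (∑ i, algebraMap K _ (A k i) * y i) := Cn.sum _ _ _ fun i _ => (Cn.refl _ _).mul (h1 i)
    have h3 : ∑ i, algebraMap K (PowerSeries (AlgebraicClosure K)) (A k i) * TT A⁻¹ q w y i =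
        w k - aeval y (q k) := by
      unfold TT
      simp only [Finset.mul_sum, ← mul_assoc]
      rw [Finset.sum_comm]
      have h4 : ∀ j, ∑ i, algebraMap K (PowerSeries (AlgebraicClosure K)) (A k i) *
          algebraMap K _ (A⁻¹ i j) * (w j - aeval y (q j)) =
            algebraMap K _ ((A * A⁻¹) k j) * (w j - aeval y (q j)) := by
        intro j
        rw [← Finset.sum_mul, Matrix.mul_apply, map_sum]
        simp only [map_mul]
      rw [Finset.sum_congr rfl fun j _ => h4 j, Matrix.mul_nonsing_inv _ hA]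
      rw [Finset.sum_eq_single k]
      · rw [Matrix.one_apply_eq, map_one, one_mul]
      · intro j _ hj
        rw [Matrix.one_apply_ne hj.symm, map_zero, zero_mul]
      · intro h
        exact absurd (Finset.mem_univ k) h
    rw [h3] at h2
    rw [hpq]
    have h5 := h2.symm.add (Cn.refl (N + 1) (aeval y (q k)))
    rwa [sub_add_cancel] at h5
  · refine gg_fix A⁻¹ q hp (hpX w hw) hw ?_ N i
    funext i
    unfold TT
    have h3 : ∀ j, aeval w (p j) - aeval w (q j) =
        ∑ k, algebraMap K (PowerSeries (AlgebraicClosure K)) (A j k) * w k := by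
      intro j
      rw [hpq, add_sub_cancel_right]
    simp only [h3, Finset.mul_sum, ← mul_assoc]
    rw [Finset.sum_comm]
    have h4 : ∀ k, ∑ j, algebraMap K (PowerSeries (AlgebraicClosure K)) (A⁻¹ i j) *
        algebraMap K _ (A j k) * w k = algebraMap K _ ((A⁻¹ * A) i k) * w k := by
      intro k
      rw [← Finset.sum_mul, Matrix.mul_apply, map_sum]
      simp only [map_mul]
    rw [Finset.sum_congr rfl fun j _ => h4 j, Matrix.nonsing_inv_mul _ hA]
    rw [Finset.sum_eq_single i]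
    · rw [Matrix.one_apply_eq, map_one, one_mul]
    · intro j _ hj
      rw [Matrix.one_apply_ne hj.symm, map_zero, zero_mul]
    · intro h
      exact absurd (Finset.mem_univ i) h

/-- the truncations of the formal coordinates, the unit and the two polynomials -/
theorem exists_trunc (f f' : MvPolynomial σ ℂ) (φ : σ → MvPowerSeries σ ℂ) (u : MvPowerSeries σ ℂ)
    (hφ : Pool.Agent.J4H50.TF.IsCo φ) (hu : IsUnit u)
    (h : MvPowerSeries.subst φ (f' : MvPowerSeries σ ℂ) = u * (f : MvPowerSeries σ ℂ)) (N : ℕ) :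
    ∃ (p : σ → MvPolynomial σ ℂ) (A : Matrix σ σ ℂ) (U : MvPolynomial σ ℂ), IsUnit A.det ∧
      (∀ i, p i - ∑ j, C (A i j) * X j ∈ idealOfVars σ ℂ ^ 2) ∧ constantCoeff U ≠ 0 ∧
      bind₁ p f' - U * f ∈ idealOfVars σ ℂ ^ (N + 2) := by
  obtain ⟨h0, h1⟩ := hφ
  refine ⟨fun i => MvPowerSeries.truncTotal (N + 2) (φ i),
    Matrix.of fun i j => MvPowerSeries.coeff (Finsupp.single j 1) (φ i),
    MvPowerSeries.truncTotal (N + 2) u, isUnit_iff_ne_zero.2 h1, ?_, ?_, ?_⟩
  · intro i
    rw [mem_pow_idealOfVars_iff']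
    intro x hx
    rw [coeff_sub, MvPowerSeries.coeff_truncTotal _ (by omega), coeff_sum]
    simp only [coeff_C_mul, Matrix.of_apply]
    by_cases hx0 : x = 0
    · subst hx0
      have h2 : MvPowerSeries.coeff 0 (φ i) = 0 := h0 i
      rw [h2, zero_sub, neg_eq_zero]
      refine Finset.sum_eq_zero fun j _ => ?_
      rw [coeff_zero_X, mul_zero]
    · have hx1 : x.degree = 1 := by
        have : x.degree ≠ 0 := fun h => hx0 ((Finsupp.degree_eq_zero_iff x).1 h)
        omega
      obtain ⟨k, rfl⟩ : ∃ k, x = Finsupp.single k 1 := by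
        obtain ⟨k, hk⟩ : x.support.Nonempty := Finsupp.support_nonempty_iff.2 hx0
        refine ⟨k, ?_⟩
        have hk1 : 1 ≤ x k := Nat.one_le_iff_ne_zero.2 (Finsupp.mem_support_iff.1 hk)
        have h3 : Finsupp.single k 1 ≤ x := Finsupp.single_le_iff.2 hk1
        obtain ⟨y, hy⟩ := le_iff_exists_add.1 h3
        have h4 := congrArg Finsupp.degree hy
        rw [map_add, Finsupp.degree_single, hx1] at h4
        have h5 : y.degree = 0 := by omega
        rw [hy, (Finsupp.degree_eq_zero_iff y).1 h5, add_zero]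
      rw [Finset.sum_eq_single k]
      · rw [coeff_X, if_pos rfl, mul_one, sub_self]
      · intro j _ hj
        rw [coeff_X, if_neg, mul_zero]
        intro h5
        exact hj (Finsupp.single_left_injective one_ne_zero h5)
      · intro h
        exact absurd (Finset.mem_univ k) h
  · rw [constantCoeff_eq, MvPowerSeries.coeff_truncTotal _ (by simp)]
    have h2 := hu.map (MvPowerSeries.constantCoeff (σ := σ) (R := ℂ))
    exact h2.ne_zero
  · rw [MvPowerSeries.subst_coe] at h
    have h2 : ∀ F : MvPolynomial σ ℂ, MvPowerSeries.truncTotalAlgHom σ ℂ (N + 2) (aeval φ F) =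
        Ideal.Quotient.mk (idealOfVars σ ℂ ^ (N + 2))
          (bind₁ (fun i => MvPowerSeries.truncTotal (N + 2) (φ i)) F) := by
      intro F
      induction F using MvPolynomial.induction_on with
      | C a =>
        have h3 : aeval φ (C a) = algebraMap (MvPolynomial σ ℂ) (MvPowerSeries σ ℂ) (C a) := by
          rw [algHom_C]
          exact IsScalarTower.algebraMap_apply ℂ (MvPolynomial σ ℂ) (MvPowerSeries σ ℂ) a
        rw [h3, AlgHom.commutes, bind₁_C_right]
        rfl
      | add p q hp hq => rw [map_add, map_add, hp, hq, map_add, map_add]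
      | mul_X p i hp =>
        rw [map_mul, map_mul, hp, map_mul, map_mul, aeval_X, bind₁_X_right]
        rfl
    have h4 : MvPowerSeries.truncTotalAlgHom σ ℂ (N + 2) (f : MvPowerSeries σ ℂ) =
        Ideal.Quotient.mk (idealOfVars σ ℂ ^ (N + 2)) f :=
      (MvPowerSeries.truncTotalAlgHom σ ℂ (N + 2)).commutes f
    have h5 := congrArg (MvPowerSeries.truncTotalAlgHom σ ℂ (N + 2)) h
    rw [h2, map_mul, h4] at h5
    rw [← Ideal.Quotient.eq, h5, map_mul]
    rfl

end change

section jets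

variable {K : Type} [Field K] {σ : Type} [Fintype σ]

/-- the map of the jets of the level `N` given by polynomials -/
noncomputable def jt (N : ℕ) (p : σ → MvPolynomial σ K) (z : Pt K (σ × Fin (N + 1))) :
    Pt K (σ × Fin (N + 1)) := fun q => PowerSeries.coeff q.2 (aeval (ar z) (p q.1))

theorem pf_jt (N : ℕ) (p : σ → MvPolynomial σ K) (q : σ × Fin (N + 1)) :
    IsPF fun z => jt N p z q := by
  have h := ev_poly (fun z : Pt K (σ × Fin (N + 1)) => ar z) (fun i => pa_ar i)
    (rename some (p q.1)) q.2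
  simp only [ev_some] at h
  exact h

theorem cn_jt (N : ℕ) (p : σ → MvPolynomial σ K) (z : Pt K (σ × Fin (N + 1))) (i : σ) :
    Cn (N + 1) (ar (jt N p z) i) (aeval (ar z) (p i)) := by
  rw [cn_iff]
  intro j hj
  rw [coeff_ar, dif_pos hj]
  rfl

theorem coeff_ar' {N : ℕ} (z : Pt K (σ × Fin (N + 1))) (q : σ × Fin (N + 1)) :
    PowerSeries.coeff q.2 (ar z q.1) = z q := by
  rw [coeff_ar, dif_pos q.2.2]

end jets

/-- (CE) formal coordinate changes and units -/
theorem t_CE : Bas → S_CE := by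
  intro hB R _ M v hv σ _ _ f f' φ u hφ hu h l
  obtain ⟨N₀, hA, hA'⟩ := common (cyl_A1 M v hv hB.v1 hB.cc f l) (cyl_A1 M v hv hB.v1 hB.cc f' l)
  obtain ⟨N, hN1, hN2⟩ : ∃ N, N₀ ≤ N ∧ l ≤ N := ⟨N₀ + l, by omega, by omega⟩
  replace hA := cyl_mono hA hN1
  replace hA' := cyl_mono hA' hN1
  obtain ⟨p, A, U, hdet, hp, hU, hP⟩ := exists_trunc f f' φ u hφ hu h N
  obtain ⟨g, hg⟩ := exists_inverse p A hdet hp N
  rw [hB.v0 M v hv _ N hA, hB.v0 M v hv _ N hA']
  congr 1
  have key : ∀ y : Ac ℂ σ, (∀ i, PowerSeries.X ∣ y i) →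
      (Od (aeval (fun j => aeval y (p j)) f') l ↔ Od (aeval y f) l) := by
    intro y hy
    have e1 : aeval (fun j => aeval y (p j)) f' = aeval y (bind₁ p f') := (aeval_bind₁ y p f').symm
    have e2 := dvd_aeval hy (N + 2) _ hP
    rw [map_sub, map_mul] at e2
    have e3 : Cn (N + 2) (aeval y (bind₁ p f')) (aeval y U * aeval y f) := e2
    have e4 : PowerSeries.coeff 0 (aeval y U) ≠ 0 := by
      have e5 : ∀ i, Cn 1 (y i) ((0 : Ac ℂ σ) i) := fun i => by
        rw [Pi.zero_apply, cn_zero_iff, pow_one]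
        exact hy i
      have e6 := cn_iff.1 (cn_aeval e5 U) 0 one_pos
      rw [e6]
      have e7 : aeval (0 : Ac ℂ σ) U =
          algebraMap ℂ (PowerSeries (AlgebraicClosure ℂ)) (constantCoeff U) := by
        rw [aeval_zero]
      rw [e7, PowerSeries.algebraMap_apply, PowerSeries.coeff_zero_C]
      exact (map_ne_zero _).2 hU
    rw [e1]
    constructor
    · intro h1
      exact (od_unit e4).1 (od_of_cn (e3.symm.mono (by omega)) h1)
    · intro h1
      exact od_of_cn (e3.mono (by omega)) ((od_unit e4).2 h1)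
  have hor : ∀ {F : MvPolynomial σ ℂ} {z : Pt ℂ (σ × Fin (N + 1))}, ar z ∈ A1 F l →
      ∀ i, PowerSeries.X ∣ ar z i := fun hz i => X_dvd_iff0.2 (hz.1 i)
  have hcz : ∀ {a b : PowerSeries (AlgebraicClosure ℂ)}, Cn (N + 1) a b → PowerSeries.X ∣ b →
      PowerSeries.coeff 0 a = 0 := fun h1 h2 => by
    rw [cn_iff.1 h1 0 (by omega)]
    exact X_dvd_iff0.1 h2
  refine M.iso _ _ hA.2 hA'.2 (jt N p) (jt N g) (regularOn_poly (pf_jt N p) _)
    (regularOn_poly (pf_jt N g) _) ?_ ?_ ?_ ?_
  · intro z hz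
    have hx := hor hz
    obtain ⟨-, -, h3, -⟩ := hg _ hx
    exact ⟨fun i => hcz (cn_jt N p z i) (h3 i),
      od_of_cn ((cn_aeval (cn_jt N p z) f').mono (by omega)) ((key _ hx).2 hz.2)⟩
  · intro w hw
    have hx := hor hw
    obtain ⟨h1, h2, -, -⟩ := hg _ hx
    exact ⟨fun i => hcz (cn_jt N g w i) (h1 i),
      od_of_cn ((cn_aeval (cn_jt N g w) f).mono (by omega)) ((key _ h1).1
        (od_of_cn ((cn_aeval h2 f').mono (by omega)) hw.2))⟩
  · intro z hz
    have hx := hor hz
    obtain ⟨-, -, -, h4⟩ := hg _ hx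
    funext q
    rw [← coeff_ar' z q]
    exact (cn_iff.1 ((cn_aeval (cn_jt N p z) (g q.1)).trans (h4 q.1)) q.2 q.2.2)
  · intro w hw
    have hx := hor hw
    obtain ⟨-, h2, -, -⟩ := hg _ hx
    funext q
    rw [← coeff_ar' w q]
    exact (cn_iff.1 ((cn_aeval (cn_jt N g w) (p q.1)).trans (h2 q.1)) q.2 q.2.2)

end Pool.Agent.J4H73.YK
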