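import Pool.Agent.J4H50.YK.Stm

set_option autoImplicit false

/-! # Project YK (helper50): the volumes of the sets `D W ord(x_i) ≥ s w_i` -/

namespace Pool.Agent.J4H73.YK

open MvPolynomial
open Pool.Agent.W428.MOT
open Pool.Agent.J4H50.YJ
open Pool.Agent.J4H50.YK

/-- the smallest integer `≥ a / b` -/
def up (a b : ℕ) : ℕ := (a + (b - 1)) / b

theorem lt_up (a b j : ℕ) (hb : 0 < b) : j < up a b ↔ b * j < a := by
  unfold up
  rw [← Nat.succ_le_iff, Nat.le_div_iff_mul_le hb, Nat.succ_mul, mul_comm j b]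
  omega

/-- the arcs `(t ^ ⌈s w_i / (D W)⌉ y_i)_i` -/
theorem Sf_eq {K : Type} [Field K] {σ : Type} (w : σ → ℕ) (D W s : ℕ) (hD : 0 < D) (hW : 0 < W) :
    (Sf w D W s : Set (Ac K σ)) =
      {x : Ac K σ | ∃ y ∈ (Set.univ : Set (Ac K σ)), ∀ i, x i = PowerSeries.X ^ (up (s * w i) (D * W)) * y i} := by
  have hDW : 0 < D * W := Nat.mul_pos hD hW
  ext x
  constructor
  · intro hx
    have h1 : ∀ i, ∃ y, x i = PowerSeries.X ^ (up (s * w i) (D * W)) * y := by
      intro i
      have h2 : PowerSeries.X ^ (up (s * w i) (D * W)) ∣ x i := by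
        rw [PowerSeries.X_pow_dvd_iff]
        intro j hj
        exact hx i j ((lt_up _ _ j hDW).1 hj)
      exact h2
    choose y hy using h1
    exact ⟨y, Set.mem_univ _, hy⟩
  · rintro ⟨y, -, hy⟩ i j hj
    have h2 : PowerSeries.X ^ (up (s * w i) (D * W)) ∣ x i := ⟨_, hy i⟩
    rw [PowerSeries.X_pow_dvd_iff] at h2
    exact h2 j ((lt_up _ _ j hDW).2 hj)

/-- (W0) the volumes of the sets `D ord(x_i) ≥ (m + 1) w_i` -/
theorem t_W0 : Bas → S_W0 := by
  intro hB K _ R _ M v hv σ _ w D W s hw hD hW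
  have hDW : 0 < D * W := Nat.mul_pos hD hW
  have hU : IsCyl (Set.univ : Set (Ac K σ)) := (cyl_ops M v hv hB.v1).2.2.2.1
  have h1 : (vol M v (Set.univ : Set (Ac K σ))) = 1 := (hB.v1 M v hv (σ := σ)).2.2.2.1
  refine ⟨?_, ?_⟩
  · rw [Sf_eq w D W s hD hW]
    exact (hB.sc M v hv (fun i => up (s * w i) (D * W)) Set.univ hU).1
  · rw [Sf_eq w D W (s + 1) hD hW]
    rw [(hB.sc M v hv (fun i => up ((s + 1) * w i) (D * W)) Set.univ hU).2, h1, mul_one]
    congr 1
    have h2 : ∀ i, up ((s + 1) * w i) (D * W) = ((s + 1) * w i - 1) / (D * W) + 1 := by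
      intro i
      have h3 : 0 < (s + 1) * w i := Nat.mul_pos (Nat.succ_pos s) (hw i)
      unfold up
      rw [← Nat.add_div_right _ hDW]
      congr 1
      omega
    rw [Finset.sum_congr rfl fun i _ => h2 i, Finset.sum_add_distrib, Finset.sum_const,
      Finset.card_univ, smul_eq_mul, mul_one, add_comm]

end Pool.Agent.J4H73.YK
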